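import Pool.Agent.H29.BE.Main

/-!
# The generalized Benson conjecture is false

For every algebraically closed field `k` of characteristic three there is an indecomposable
representation `V` of `α_3(1,1)` of dimension eight such that `𝒟(V)` is equivalent, as a symmetric
tensor category, to `rep_k(D_5)`, where `D_5` is the dihedral group of order ten.  The prime
`5 > 3` divides the order of this group.
-/

universe u

namespace Pool.Agent.Results.MP_b3c5de_al.DihedralSymmetry

open Pool.Agent.H29.BE

theorem result (k : Type u) [Field k] [IsAlgClosed k] [CharP k 3] :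
    ∃ V : ARep k 3 1 1, dimv (sp V) = 8 ∧ IsIndecomposable V ∧
      IsInducedSymmetry V (DV V) (DihedralGroup 5) ∧
      ∃ q : ℕ, q.Prime ∧ 3 < q ∧ q ∣ Nat.card (DihedralGroup 5) := by
  obtain ⟨ω, hω, hω1⟩ := Pool.Agent.H29.BC.exists_omega (k := k)
  refine ⟨newObj (Pool.Agent.H29.BC.md k 2), ?_, indec k, main hω hω1, 5, by norm_num,
    by norm_num, ?_⟩
  · have h : Module.finrank k (Fin 8 → k) = 8 := Module.finrank_fin_fun k
    exact h
  · rw [DihedralGroup.nat_card]
    decide

end Pool.Agent.Results.MP_b3c5de_al.DihedralSymmetry
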